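import Mathlib

set_option autoImplicit false

namespace Pool.Agent.N351

/-- The vector space `F_2^n`. -/
abbrev V (n : ℕ) : Type := Fin n → ZMod 2

/-- The standard inner product. -/
def dot {n : ℕ} (u v : V n) : ZMod 2 := ∑ i, u i * v i

/-- `F` is almost perfect nonlinear. -/
def IsAPN {n : ℕ} (F : V n → V n) : Prop :=
  ∀ a : V n, a ≠ 0 → ∀ b : V n, (Finset.univ.filter (fun x : V n => F (x + a) + F x = b)).card ≤ 2

/-- The Boolean function `f` has algebraic degree `d`: its algebraic normal form, i.e. the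
multilinear polynomial representing it, has total degree `d`. -/
def HasDegree {n : ℕ} (f : V n → ZMod 2) (d : ℕ) : Prop :=
  ∃ P : MvPolynomial (Fin n) (ZMod 2),
    (∀ j : Fin n, MvPolynomial.degreeOf j P ≤ 1) ∧ (∀ x : V n, MvPolynomial.eval x P = f x) ∧
      P.totalDegree = d

/-- `F` is quadratic: the largest algebraic degree of a coordinate function is `2`. -/
def IsQuadratic {n : ℕ} (F : V n → V n) : Prop :=
  (∀ i, ∃ d ≤ 2, HasDegree (fun x => F x i) d) ∧ ∃ i, HasDegree (fun x => F x i) 2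

/-- `π` is the ortho-derivative of `F`: `π 0 = 0`, and for `a ≠ 0` the vector `π a` is nonzero and
orthogonal to all values `D_a F(x) + D_a F(0)`, where `D_a F(x) = F(x + a) + F(x)`. -/
def IsOrthoDerivative {n : ℕ} (F π : V n → V n) : Prop :=
  π 0 = 0 ∧ ∀ a : V n, a ≠ 0 →
    π a ≠ 0 ∧ ∀ x : V n, dot (π a) ((F (x + a) + F x) + (F (0 + a) + F 0)) = 0

/-- The nonlinearity of `G`: the least number of `x` with `b · G(x) ≠ c · x + e`, over all nonzero
`b` and all affine functions `x ↦ c · x + e`. -/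
noncomputable def NL {n : ℕ} (G : V n → V n) : ℕ :=
  sInf {k : ℕ | ∃ b : V n, b ≠ 0 ∧ ∃ (c : V n) (e : ZMod 2),
    k = (Finset.univ.filter (fun x : V n => dot b (G x) ≠ dot c x + e)).card}

end Pool.Agent.N351
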