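import Mathlib

set_option autoImplicit false

/-! Auxiliary lemmas: third derivatives of quadratic polynomials, adjugates of matrices with a
prescribed kernel vector, multilinear reduction. -/

namespace Pool.Agent.N351

open MvPolynomial Matrix

/-! ### adjugate -/

lemma adj_rel {R : Type*} [CommRing R] {n : ℕ} (M : Matrix (Fin n) (Fin n) R) (x : Fin n → R)
    (h : M *ᵥ x = 0) (i j k : Fin n) : x k * M.adjugate i j = M.adjugate k j * x i := by
  set M' := M.updateRow j (Pi.single k 1) with hM'
  have h1 : M' *ᵥ x = Pi.single j (x k) := by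
    funext r
    by_cases hr : r = j
    · subst hr
      simp [hM', Matrix.mulVec, Matrix.updateRow_self]
    · have h2 := congrFun h r
      simp only [Matrix.mulVec, Pi.zero_apply] at h2
      simp [hM', Matrix.mulVec, Matrix.updateRow_ne hr, h2, Pi.single_eq_of_ne hr]
  have h3 : M'.adjugate *ᵥ (M' *ᵥ x) = M'.det • x := by
    rw [Matrix.mulVec_mulVec, Matrix.adjugate_mul, Matrix.smul_mulVec, Matrix.one_mulVec]
  rw [h1] at h3
  have h4 := congrFun h3 i
  have h5 : M'.adjugate i j = M.adjugate i j := by
    rw [Matrix.adjugate_apply, Matrix.adjugate_apply, hM', Matrix.updateRow_idem]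
  have h6 : M'.det = M.adjugate k j := by
    rw [Matrix.adjugate_apply]
  simp only [Matrix.mulVec_single, Pi.smul_apply, smul_eq_mul, h6] at h4
  rw [← h5]
  simpa [mul_comm] using h4

/-! ### monomials of degree at most two -/

lemma third_zmod2 (c : ZMod 2) : c + c = 0 := by revert c; decide

lemma degree_cases {n : ℕ} (d : Fin n →₀ ℕ) (h : (d.sum fun _ e => e) ≤ 2) :
    d = 0 ∨ (∃ i, d = Finsupp.single i 1) ∨ ∃ i j, d = Finsupp.single i 1 + Finsupp.single j 1 := by
  have step : ∀ d : Fin n →₀ ℕ, d ≠ 0 → ∃ i, ∃ d' : Fin n →₀ ℕ, d = d' + Finsupp.single i 1 ∧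
      (d.sum fun _ e => e) = (d'.sum fun _ e => e) + 1 := by
    intro d hd
    obtain ⟨i, hi⟩ := Finsupp.ne_iff.mp hd
    simp only [Finsupp.coe_zero, Pi.zero_apply] at hi
    have h1 : Finsupp.single i 1 ≤ d := by
      rw [Finsupp.single_le_iff]; omega
    refine ⟨i, d - Finsupp.single i 1, (tsub_add_cancel_of_le h1).symm, ?_⟩
    conv_lhs => rw [← tsub_add_cancel_of_le h1]
    rw [Finsupp.sum_add_index' (fun _ => rfl) (fun _ _ _ => rfl)]
    simp
  by_cases h0 : d = 0
  · exact Or.inl h0
  obtain ⟨i, d1, h1, h1'⟩ := step d h0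
  by_cases h2 : d1 = 0
  · right; left
    exact ⟨i, by rw [h1, h2, zero_add]⟩
  obtain ⟨j, d2, h3, h3'⟩ := step d1 h2
  have h4 : (d2.sum fun _ e => e) = 0 := by omega
  have h5 : d2 = 0 := by
    by_contra h5
    obtain ⟨k, d3, -, h6⟩ := step d2 h5
    omega
  right; right
  exact ⟨j, i, by rw [h1, h3, h5, zero_add]⟩

lemma prod_single {n : ℕ} (x : Fin n → ZMod 2) (i : Fin n) :
    ∏ k, x k ^ (Finsupp.single i 1 k) = x i := by
  rw [Finset.prod_eq_single i]
  · simp
  · intro b _ hb
    simp [Finsupp.single_apply, Ne.symm hb]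
  · simp

lemma eval_third {n : ℕ} (P : MvPolynomial (Fin n) (ZMod 2)) (h : P.totalDegree ≤ 2)
    (x y z : Fin n → ZMod 2) :
    eval (x + y + z) P + eval (x + y) P + eval (y + z) P + eval (x + z) P + eval x P + eval y P +
      eval z P + eval 0 P = 0 := by
  simp only [eval_eq', ← Finset.sum_add_distrib]
  refine Finset.sum_eq_zero fun d hd => ?_
  have hd2 : (d.sum fun _ e => e) ≤ 2 := (le_totalDegree hd).trans h
  simp only [← mul_add]
  rcases degree_cases d hd2 with rfl | ⟨i, rfl⟩ | ⟨i, j, rfl⟩
  · have : ∀ c : ZMod 2, c * (1 + 1 + 1 + 1 + 1 + 1 + 1 + 1) = 0 := by decide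
    simpa using this _
  · simp only [prod_single, Pi.add_apply, Pi.zero_apply]
    generalize coeff _ P = c
    generalize x i = a
    generalize y i = b
    generalize z i = e
    revert a b c e
    decide
  · have : ∀ x : Fin n → ZMod 2,
        ∏ k, x k ^ ((Finsupp.single i 1 + Finsupp.single j 1 : Fin n →₀ ℕ) k) = x i * x j := by
      intro x
      simp only [Finsupp.add_apply, pow_add, Finset.prod_mul_distrib, prod_single]
    simp only [this, Pi.add_apply, Pi.zero_apply]
    generalize coeff _ P = c
    generalize x i = a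
    generalize y i = b
    generalize z i = e
    generalize x j = a'
    generalize y j = b'
    generalize z j = e'
    revert a b c e a' b' e'
    decide

/-! ### multilinear reduction -/

/-- multilinear reduction of a polynomial over `F_2` -/
noncomputable def ml {n : ℕ} (P : MvPolynomial (Fin n) (ZMod 2)) : MvPolynomial (Fin n) (ZMod 2) :=
  ∑ d ∈ P.support, monomial (d.mapRange (fun e => min e 1) (by simp)) (coeff d P)

lemma eval_ml {n : ℕ} (P : MvPolynomial (Fin n) (ZMod 2)) (x : Fin n → ZMod 2) :
    eval x (ml P) = eval x P := by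
  rw [ml, map_sum, eval_eq' x P]
  refine Finset.sum_congr rfl fun d _ => ?_
  rw [eval_monomial, Finsupp.prod_fintype _ _ (by simp)]
  congr 1
  refine Finset.prod_congr rfl fun i _ => ?_
  rw [Finsupp.mapRange_apply]
  have h2 : ∀ c : ZMod 2, ∀ e : ℕ, c ^ min e 1 = c ^ e := by
    intro c e
    rcases Nat.eq_zero_or_pos e with he | he
    · subst he; simp
    · rw [min_eq_right he, pow_one]
      have hc : c = 0 ∨ c = 1 := by revert c; decide
      rcases hc with rfl | rfl
      · rw [zero_pow (by omega)]
      · simp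
  exact h2 _ _

lemma degreeOf_ml {n : ℕ} (P : MvPolynomial (Fin n) (ZMod 2)) (j : Fin n) :
    degreeOf j (ml P) ≤ 1 := by
  rw [ml]
  refine (degreeOf_sum_le j _ _).trans ?_
  refine Finset.sup_le fun d _ => ?_
  refine (degreeOf_le_iff).2 fun m hm => ?_
  have := support_monomial_subset hm
  rw [Finset.mem_singleton] at this
  subst this
  rw [Finsupp.mapRange_apply]
  exact min_le_right _ _

lemma totalDegree_ml {n : ℕ} (P : MvPolynomial (Fin n) (ZMod 2)) :
    (ml P).totalDegree ≤ P.totalDegree := by
  rw [ml]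
  refine (totalDegree_finset_sum _ _).trans ?_
  refine Finset.sup_le fun d hd => ?_
  refine (totalDegree_monomial_le _ _).trans (le_trans ?_ (le_totalDegree hd))
  rw [Finsupp.sum_fintype _ _ (by simp), Finsupp.sum_fintype _ _ (by simp)]
  refine Finset.sum_le_sum fun i _ => ?_
  rw [Finsupp.mapRange_apply]
  exact min_le_left _ _

end Pool.Agent.N351
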