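import Pool.Agent.N351.Defs
import Pool.Agent.N351.OrthoA

set_option autoImplicit false

/-! The degree of the components of the ortho-derivative of a quadratic APN function. -/

namespace Pool.Agent.N351

open MvPolynomial Matrix

variable {n : ℕ}

lemma z2_add_self (c : ZMod 2) : c + c = 0 := by revert c; decide
lemma v_add_self (x : V n) : x + x = 0 := by funext i; exact z2_add_self _
lemma z2_cases (c : ZMod 2) : c = 0 ∨ c = 1 := by revert c; decide

lemma dot_add_right (u v w : V n) : dot u (v + w) = dot u v + dot u w := by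
  simp [dot, mul_add, Finset.sum_add_distrib]
lemma dot_comm (u v : V n) : dot u v = dot v u := by simp [dot, mul_comm]
lemma dot_zero_right (u : V n) : dot u 0 = 0 := by simp [dot]
lemma dot_single (u : V n) (i : Fin n) : dot u (Pi.single i 1) = u i := by
  simp [dot, Pi.single_apply]

/-- the functional `v ↦ u · v` -/
def dotL (u : V n) : V n →ₗ[ZMod 2] ZMod 2 :=
  (AddMonoidHom.mk' (fun v => dot u v) (dot_add_right u)).toZModLinearMap 2

@[simp] lemma dotL_apply (u v : V n) : dotL u v = dot u v := rfl

/-- symmetric difference form -/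
def B (F : V n → V n) (a x : V n) : V n := F (x + a) + F x + (F a + F 0)

lemma B_comm (F : V n → V n) (a x : V n) : B F a x = B F x a := by
  simp only [B, add_comm x a]; abel

/-- The hypotheses that are used. -/
structure Hyp (F π : V n → V n) : Prop where
  quad : ∀ i, ∃ P : MvPolynomial (Fin n) (ZMod 2), P.totalDegree ≤ 2 ∧
    ∀ x : V n, eval x P = F x i
  apn : IsAPN F
  orth : IsOrthoDerivative F π

variable {F π : V n → V n}

lemma Hyp.add_right (H : Hyp F π) (a x y : V n) : B F a (x + y) = B F a x + B F a y := by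
  funext i
  obtain ⟨P, hP, hP'⟩ := H.quad i
  have h := eval_third P hP x y a
  simp only [hP'] at h
  simp only [B, Pi.add_apply]
  generalize F (x + y + a) i = c1 at *
  generalize F (x + y) i = c2 at *
  generalize F (y + a) i = c3 at *
  generalize F (x + a) i = c4 at *
  generalize F x i = c5 at *
  generalize F y i = c6 at *
  generalize F a i = c7 at *
  generalize F 0 i = c8 at *
  revert c1 c2 c3 c4 c5 c6 c7 c8
  decide

lemma B_self (F : V n → V n) (a : V n) : B F a a = 0 := by
  simp only [B, v_add_self]
  rw [show F 0 + F a + (F a + F 0) = (F 0 + F 0) + (F a + F a) by abel]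
  simp [v_add_self]

lemma B_zero (F : V n → V n) (a : V n) : B F a 0 = 0 := by
  simp only [B, zero_add, v_add_self]

lemma B_zero_left (F : V n → V n) (a : V n) : B F 0 a = 0 := by rw [B_comm, B_zero]

/-- `x ↦ B a x` as a linear map -/
def Hyp.BL (H : Hyp F π) (a : V n) : V n →ₗ[ZMod 2] V n :=
  (AddMonoidHom.mk' (fun v => B F a v) (H.add_right a)).toZModLinearMap 2

@[simp] lemma Hyp.BL_apply (H : Hyp F π) (a x : V n) : H.BL a x = B F a x := rfl

lemma Hyp.ker (H : Hyp F π) {a : V n} (ha : a ≠ 0) {x : V n} (hx : B F a x = 0) :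
    x = 0 ∨ x = a := by
  by_contra hcon
  push Not at hcon
  have h1 := H.apn a ha (F a + F 0)
  have h2 : ({0, a, x} : Finset (V n)) ⊆
      Finset.univ.filter (fun x : V n => F (x + a) + F x = F a + F 0) := by
    intro y hy
    simp only [Finset.mem_insert, Finset.mem_singleton] at hy
    simp only [Finset.mem_filter, Finset.mem_univ, true_and]
    have key : ∀ y, B F a y = 0 → F (y + a) + F y = F a + F 0 := by
      intro y hy
      have h3 : F (y + a) + F y + (F a + F 0) + (F a + F 0) = (F a + F 0) := by
        have : F (y + a) + F y + (F a + F 0) = 0 := hy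
        rw [this, zero_add]
      rw [add_assoc, v_add_self, add_zero] at h3
      exact h3
    rcases hy with rfl | rfl | rfl
    · exact key _ (B_zero F a)
    · exact key _ (B_self F _)
    · exact key _ hx
  have h3 := (Finset.card_le_card h2).trans h1
  rw [Finset.card_insert_of_notMem, Finset.card_insert_of_notMem, Finset.card_singleton] at h3
  · omega
  · simpa using Ne.symm hcon.2
  · simp only [Finset.mem_insert, Finset.mem_singleton, not_or]
    exact ⟨Ne.symm ha, Ne.symm hcon.1⟩

lemma Hyp.orthB (H : Hyp F π) {a : V n} (ha : a ≠ 0) (x : V n) : dot (π a) (B F a x) = 0 := by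
  have := (H.orth.2 a ha).2 x
  rwa [zero_add] at this

lemma Hyp.range_eq (H : Hyp F π) {a : V n} (ha : a ≠ 0) :
    LinearMap.range (H.BL a) = LinearMap.ker (dotL (π a)) := by
  apply Submodule.eq_of_le_of_finrank_eq
  · rintro _ ⟨x, rfl⟩
    rw [LinearMap.mem_ker]
    exact H.orthB ha x
  · have h1 := LinearMap.finrank_range_add_finrank_ker (H.BL a)
    have h2 := LinearMap.finrank_range_add_finrank_ker (dotL (π a))
    have h3 : LinearMap.ker (H.BL a) = Submodule.span (ZMod 2) {a} := by
      apply le_antisymm
      · intro x hx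
        rw [LinearMap.mem_ker] at hx
        rcases H.ker ha hx with rfl | rfl
        · exact Submodule.zero_mem _
        · exact Submodule.mem_span_singleton_self _
      · rw [Submodule.span_singleton_le_iff_mem, LinearMap.mem_ker]
        exact B_self F a
    have h4 : Module.finrank (ZMod 2) (LinearMap.ker (H.BL a)) = 1 := by
      rw [h3, finrank_span_singleton ha]
    have h5 : LinearMap.range (dotL (π a)) = ⊤ := by
      have hne := (H.orth.2 a ha).1
      obtain ⟨i, hi⟩ := Function.ne_iff.mp hne
      have hi1 : π a i = 1 := by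
        rcases z2_cases (π a i) with h | h
        · exact absurd h hi
        · exact h
      rw [LinearMap.range_eq_top]
      intro c
      refine ⟨c • Pi.single i 1, ?_⟩
      rw [map_smul, dotL_apply, dot_single, hi1, smul_eq_mul, mul_one]
    have h6 : Module.finrank (ZMod 2) (LinearMap.range (dotL (π a))) = 1 := by
      rw [h5, finrank_top, Module.finrank_self]
    omega

lemma Hyp.sol (H : Hyp F π) {a b : V n} (ha : a ≠ 0) :
    (dot b (π a) = 1 ∧ (Finset.univ.filter fun x => B F a x = b) = ∅) ∨
    (dot b (π a) = 0 ∧ ∃ x0, B F a x0 = b ∧ x0 ≠ x0 + a ∧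
      (Finset.univ.filter fun x => B F a x = b) = {x0, x0 + a}) := by
  rcases z2_cases (dot b (π a)) with h | h
  · right
    refine ⟨h, ?_⟩
    have h1 : b ∈ LinearMap.ker (dotL (π a)) := by
      rw [LinearMap.mem_ker, dotL_apply, dot_comm, h]
    rw [← H.range_eq ha] at h1
    obtain ⟨x0, hx0⟩ := h1
    rw [Hyp.BL_apply] at hx0
    refine ⟨x0, hx0, ?_, ?_⟩
    · intro h2
      exact ha (by simpa using h2.symm)
    · ext x
      simp only [Finset.mem_filter, Finset.mem_univ, true_and, Finset.mem_insert,
        Finset.mem_singleton]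
      constructor
      · intro hx
        have h2 : B F a (x + x0) = 0 := by rw [H.add_right, hx, hx0, v_add_self]
        rcases H.ker ha h2 with h3 | h3
        · left
          have : x + x0 + x0 = 0 + x0 := by rw [h3]
          rwa [add_assoc, v_add_self, add_zero, zero_add] at this
        · right
          have : x + x0 + x0 = a + x0 := by rw [h3]
          rw [add_assoc, v_add_self, add_zero] at this
          rw [this, add_comm]
      · rintro (rfl | rfl)
        · exact hx0
        · rw [H.add_right, hx0, B_self, add_zero]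
  · left
    refine ⟨h, ?_⟩
    rw [Finset.filter_eq_empty_iff]
    intro x _ hx
    have := H.orthB ha x
    rw [hx, dot_comm, h] at this
    exact one_ne_zero this

lemma Hyp.sum_zero (H : Hyp F π) {b : V n} (hb : b ≠ 0) (h : V n → ZMod 2)
    (hh : ∀ a x, B F a x = b → h x + h (x + a) = h a) :
    ∑ a ∈ Finset.univ.erase (0 : V n), (1 + dot b (π a)) * h a = 0 := by
  have h1 : ∀ a ∈ Finset.univ.erase (0 : V n), (1 + dot b (π a)) * h a =
      ∑ x ∈ Finset.univ.filter (fun x => B F a x = b), h x := by
    intro a ha
    have ha' : a ≠ 0 := Finset.ne_of_mem_erase ha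
    rcases H.sol (b := b) ha' with ⟨h2, h3⟩ | ⟨h2, x0, h3, h4, h5⟩
    · rw [h3, h2, Finset.sum_empty, z2_add_self, zero_mul]
    · rw [h5, h2, Finset.sum_pair h4, hh a x0 h3, add_zero, one_mul]
  rw [Finset.sum_congr rfl h1]
  have h2 : ∑ a ∈ Finset.univ.erase (0 : V n),
      ∑ x ∈ Finset.univ.filter (fun x => B F a x = b), h x =
      ∑ a : V n, ∑ x ∈ Finset.univ.filter (fun x => B F a x = b), h x := by
    rw [← Finset.sum_erase_add _ _ (Finset.mem_univ (0 : V n))]
    have : (Finset.univ.filter fun x => B F 0 x = b) = ∅ := by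
      rw [Finset.filter_eq_empty_iff]
      intro x _ hx
      rw [B_zero_left] at hx
      exact hb hx.symm
    rw [this, Finset.sum_empty, add_zero]
  rw [h2]
  simp only [Finset.sum_filter]
  rw [Finset.sum_comm]
  refine Finset.sum_eq_zero fun x _ => ?_
  simp only [B_comm F _ x]
  rw [← Finset.sum_filter]
  by_cases hx : x = 0
  · subst hx
    have : (Finset.univ.filter fun x => B F 0 x = b) = ∅ := by
      rw [Finset.filter_eq_empty_iff]
      intro x _ hx
      rw [B_zero_left] at hx
      exact hb hx.symm
    rw [this, Finset.sum_empty]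
  rcases H.sol (b := b) hx with ⟨h2, h3⟩ | ⟨h2, x0, h3, h4, h5⟩
  · rw [h3, Finset.sum_empty]
  · rw [h5, Finset.sum_pair h4, z2_add_self]

/-- The components of the ortho-derivative have degree at least `n - 2`. -/
lemma Hyp.lower (H : Hyp F π) (hn : 3 ≤ n) {b : V n} (hb : b ≠ 0)
    (P : MvPolynomial (Fin n) (ZMod 2)) (hP : P.totalDegree ≤ n - 3)
    (hP' : ∀ x : V n, eval x P = dot b (π x)) : False := by
  obtain ⟨i, hi⟩ := Function.ne_iff.mp hb
  have hi1 : b i = 1 := by
    rcases z2_cases (b i) with h | h
    · exact absurd h hi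
    · exact h
  obtain ⟨Q, hQ, hQ'⟩ := H.quad i
  have h0 := H.sum_zero hb (fun x => 1 + (F x i + F 0 i)) (by
    intro a x hx
    have h1 := congrFun hx i
    rw [hi1] at h1
    simp only [B, Pi.add_apply] at h1
    show 1 + (F x i + F 0 i) + (1 + (F (x + a) i + F 0 i)) = 1 + (F a i + F 0 i)
    generalize F (x + a) i = c4 at *
    generalize F x i = c5 at *
    generalize F a i = c7 at *
    generalize F 0 i = c8 at *
    revert c4 c5 c7 c8
    decide)
  have h1 : ∑ x : V n, eval x ((1 + P) * (1 + (Q + C (F 0 i)))) = 0 := by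
    apply MvPolynomial.sum_eval_eq_zero
    rw [ZMod.card, Fintype.card_fin]
    have e1 : (1 + P).totalDegree ≤ n - 3 := by
      refine (totalDegree_add _ _).trans (max_le ?_ hP)
      rw [totalDegree_one]; omega
    have e2 : (1 + (Q + C (F 0 i))).totalDegree ≤ 2 := by
      refine (totalDegree_add _ _).trans (max_le ?_ ?_)
      · rw [totalDegree_one]; omega
      · refine (totalDegree_add _ _).trans (max_le hQ ?_)
        rw [totalDegree_C]; omega
    have e3 := (totalDegree_mul (1 + P) (1 + (Q + C (F 0 i)))).trans (add_le_add e1 e2)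
    omega
  simp only [map_mul, map_add, map_one, eval_C, hP', hQ'] at h1
  rw [← Finset.sum_erase_add _ _ (Finset.mem_univ (0 : V n))] at h1
  have h2 : ∑ x ∈ Finset.univ.erase (0 : V n), (1 + dot b (π x)) * (1 + (F x i + F 0 i)) = 0 := h0
  rw [h2, H.orth.1, dot_zero_right, z2_add_self] at h1
  simp at h1

end Pool.Agent.N351
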