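import Pool.Agent.N351.OrthoB

set_option autoImplicit false

/-! Upper bound for the degree of the ortho-derivative and conclusions. -/

namespace Pool.Agent.N351

open MvPolynomial Matrix

variable {n : ℕ} {F π : V n → V n}

/-- the matrix of `x ↦ B a x` with polynomial entries -/
noncomputable def Mat (F : V n → V n) : Matrix (Fin n) (Fin n) (MvPolynomial (Fin n) (ZMod 2)) :=
  fun i j => ∑ k, C (B F (Pi.single k 1) (Pi.single j 1) i) * X k

lemma Hyp.eval_mat (H : Hyp F π) (a : V n) (i j : Fin n) :
    eval a (Mat F i j) = B F a (Pi.single j 1) i := by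
  rw [Mat, map_sum]
  simp only [map_mul, eval_C, eval_X]
  rw [B_comm F a, ← H.BL_apply, LinearMap.pi_apply_eq_sum_univ (H.BL _) a, Finset.sum_apply]
  refine Finset.sum_congr rfl fun k _ => ?_
  rw [Pi.smul_apply, smul_eq_mul, mul_comm, H.BL_apply, B_comm]
  congr 3
  funext m
  simp [Pi.single_apply, eq_comm]

lemma mat_mulVec (F : V n → V n) : Mat F *ᵥ (fun i => X i) = 0 := by
  funext i
  simp only [Matrix.mulVec, dotProduct, Mat, Pi.zero_apply, Finset.sum_mul]
  rw [← Finset.sum_product' (s := Finset.univ) (t := Finset.univ)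
    (f := fun j k => C (B F (Pi.single k 1) (Pi.single j 1) i) * X k * X j)]
  refine Finset.sum_involution (fun p _ => (p.2, p.1)) ?_ ?_ ?_ ?_
  · rintro ⟨j, k⟩ _
    simp only
    rw [B_comm F (Pi.single j 1)]
    have : C (B F (Pi.single k 1) (Pi.single j 1) i) * X j * X k =
      (C (B F (Pi.single k 1) (Pi.single j 1) i) * X k * X j :
        MvPolynomial (Fin n) (ZMod 2)) := by ring
    rw [this]
    exact CharTwo.add_self_eq_zero _
  · rintro ⟨j, k⟩ _ h1 h2
    apply h1
    simp only [Prod.mk.injEq] at h2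
    simp only
    rw [h2.1, B_self]
    simp
  · intro _ _; simp
  · intro _ _; rfl

lemma homog_entry (F : V n → V n) (i j : Fin n) : (Mat F i j).IsHomogeneous 1 := by
  rw [Mat]
  refine IsHomogeneous.sum _ _ _ fun k _ => ?_
  have := (isHomogeneous_C (Fin n) (B F (Pi.single k 1) (Pi.single j 1) i)).mul
    (isHomogeneous_X (ZMod 2) k)
  simpa using this

lemma homog_adj (F : V n → V n) (i j : Fin n) : ((Mat F).adjugate i j).IsHomogeneous (n - 1) := by
  rw [Matrix.adjugate_apply, Matrix.det_apply]
  refine IsHomogeneous.sum _ _ _ fun σ _ => ?_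
  have h1 : (∏ r, (Mat F).updateRow j (Pi.single i 1) (σ r) r).IsHomogeneous (n - 1) := by
    have h2 : ∀ r ∈ (Finset.univ : Finset (Fin n)),
        ((Mat F).updateRow j (Pi.single i 1) (σ r) r).IsHomogeneous (if σ r = j then 0 else 1) := by
      intro r _
      by_cases h : σ r = j
      · rw [if_pos h, h, Matrix.updateRow_self]
        by_cases hr : r = i
        · subst hr
          rw [Pi.single_eq_same]
          exact isHomogeneous_one _ _
        · rw [Pi.single_eq_of_ne hr]
          exact isHomogeneous_zero _ _ _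
      · rw [if_neg h, Matrix.updateRow_ne h]
        exact homog_entry F _ _
    have h3 := IsHomogeneous.prod _ _ _ h2
    convert h3 using 1
    rw [Equiv.sum_comp σ (fun r => if r = j then 0 else 1)]
    have h4 : ∑ r : Fin n, (if r = j then 0 else 1) + ∑ r : Fin n, (if r = j then 1 else 0) = n := by
      rw [← Finset.sum_add_distrib]
      have : ∀ r : Fin n, ((if r = j then 0 else 1) + (if r = j then 1 else 0) : ℕ) = 1 := by
        intro r; split_ifs <;> rfl
      simp [this]
    rw [Finset.sum_ite_eq' Finset.univ j] at h4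
    simp only [Finset.mem_univ, if_true] at h4
    omega
  rcases Int.units_eq_one_or (Equiv.Perm.sign σ) with h | h
  · rw [h, one_smul]; exact h1
  · rw [h, Units.neg_smul, one_smul]; exact h1.neg

lemma dvd_adj (F : V n → V n) (hn : 2 ≤ n) (i j : Fin n) :
    (X i : MvPolynomial (Fin n) (ZMod 2)) ∣ (Mat F).adjugate i j := by
  obtain ⟨k, hk⟩ : ∃ k : Fin n, k ≠ i := by
    have : Nontrivial (Fin n) := Fin.nontrivial_iff_two_le.2 hn
    exact exists_ne i
  have h1 := adj_rel (Mat F) (fun i => X i) (mat_mulVec F) i j k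
  have h2 : (X i : MvPolynomial (Fin n) (ZMod 2)) ∣ X k * (Mat F).adjugate i j := by
    rw [h1]; exact dvd_mul_left _ _
  rcases (X_prime (R := ZMod 2) (i := i)).dvd_or_dvd h2 with h3 | h3
  · rw [X_dvd_X] at h3
    exact absurd h3.symm hk
  · exact h3

lemma exists_poly (F : V n → V n) (hn : 3 ≤ n) (j : Fin n) :
    ∃ P : MvPolynomial (Fin n) (ZMod 2), P.totalDegree ≤ n - 2 ∧ eval 0 P = 0 ∧
      ∀ i, (Mat F).adjugate i j = X i * P := by
  choose p hp using fun i => dvd_adj F (by omega) i j
  let i0 : Fin n := ⟨0, by omega⟩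
  have hX : ∀ i : Fin n, (X i : MvPolynomial (Fin n) (ZMod 2)) ≠ 0 := fun i => X_ne_zero i
  refine ⟨p i0, ?_, ?_, ?_⟩
  · by_cases h0 : p i0 = 0
    · rw [h0]; simp
    · have h1 := (homog_adj F i0 j).totalDegree_le
      rw [hp i0, totalDegree_mul_of_isDomain (hX i0) h0, totalDegree_X] at h1
      omega
  · rw [eval_zero, constantCoeff_eq]
    have h1 : coeff (Finsupp.single i0 1) ((Mat F).adjugate i0 j) = 0 := by
      apply (homog_adj F i0 j).coeff_eq_zero
      simp
      omega
    rw [hp i0, coeff_X_mul'] at h1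
    simpa using h1
  · intro i
    rw [hp i]
    congr 1
    have h1 := adj_rel (Mat F) (fun i => X i) (mat_mulVec F) i j i0
    simp only [hp] at h1
    have h2 : (X i0 * X i) * p i = (X i0 * X i) * p i0 := by
      calc (X i0 * X i) * p i = X i0 * (X i * p i) := by ring
        _ = X i0 * p i0 * X i := h1
        _ = _ := by ring
    exact mul_left_cancel₀ (mul_ne_zero (hX _) (hX _)) h2

lemma Hyp.adj_eq (H : Hyp F π) {a : V n} (ha : a ≠ 0) (i j : Fin n) (hi : a i = 1) :
    Matrix.adjugate (Matrix.of fun i j => B F a (Pi.single j 1) i) i j = π a j := by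
  set N : Matrix (Fin n) (Fin n) (ZMod 2) := Matrix.of fun i j => B F a (Pi.single j 1) i with hN
  have hNm : ∀ x : V n, N *ᵥ x = B F a x := by
    intro x
    funext r
    rw [← H.BL_apply, LinearMap.pi_apply_eq_sum_univ (H.BL a) x, Finset.sum_apply]
    simp only [Matrix.mulVec, dotProduct, hN, Matrix.of_apply]
    refine Finset.sum_congr rfl fun k _ => ?_
    rw [Pi.smul_apply, smul_eq_mul, mul_comm, H.BL_apply]
    congr 3
    funext m
    simp [Pi.single_apply, eq_comm]
  have hN0 : N *ᵥ a = 0 := by rw [hNm, B_self]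
  have hy : ∀ y : V n, y ᵥ* N = 0 ↔ ∀ x, dot y (B F a x) = 0 := by
    intro y
    constructor
    · intro h x
      have : y ⬝ᵥ (N *ᵥ x) = 0 := by rw [Matrix.dotProduct_mulVec, h, zero_dotProduct]
      rw [hNm] at this
      exact this
    · intro h
      funext c
      have h1 := h (Pi.single c 1)
      rw [← hNm] at h1
      have h2 : y ⬝ᵥ (N *ᵥ Pi.single c 1) = 0 := h1
      rw [Matrix.dotProduct_mulVec] at h2
      simpa using h2
  rw [Matrix.adjugate_apply]
  set N' := N.updateRow j (Pi.single i 1) with hN'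
  have hyj : ∀ y : V n, y j = 0 → y ᵥ* N' = y ᵥ* N := by
    intro y hy
    funext c
    simp only [Matrix.vecMul, dotProduct]
    refine Finset.sum_congr rfl fun r _ => ?_
    by_cases hr : r = j
    · rw [hr, hy, zero_mul, zero_mul]
    · rw [hN', Matrix.updateRow_ne hr]
  rcases z2_cases (π a j) with h | h
  · rw [h, ← Matrix.exists_vecMul_eq_zero_iff]
    refine ⟨π a, (H.orth.2 a ha).1, ?_⟩
    rw [hyj _ h, hy]
    exact H.orthB ha
  · rw [h]
    have : N'.det ≠ 0 := by
      rw [Ne, ← Matrix.exists_vecMul_eq_zero_iff]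
      rintro ⟨y, hy0, hyN⟩
      apply hy0
      have h1 : N' *ᵥ a = Pi.single j 1 := by
        funext r
        by_cases hr : r = j
        · subst hr
          simp [hN', Matrix.mulVec, Matrix.updateRow_self, hi]
        · have h2 := congrFun hN0 r
          simp only [Matrix.mulVec, Pi.zero_apply] at h2
          simp [hN', Matrix.mulVec, Matrix.updateRow_ne hr, h2, Pi.single_eq_of_ne hr]
      have h2 : y ⬝ᵥ (N' *ᵥ a) = 0 := by rw [Matrix.dotProduct_mulVec, hyN, zero_dotProduct]
      rw [h1] at h2
      have h3 : y j = 0 := by simpa using h2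
      rw [hyj y h3, hy] at hyN
      funext c
      have h4 : (Pi.single c 1 + π a c • Pi.single j 1 : V n) ∈ LinearMap.ker (dotL (π a)) := by
        rw [LinearMap.mem_ker, map_add, map_smul, dotL_apply, dotL_apply, dot_single, dot_single, h,
          smul_eq_mul, mul_one, z2_add_self]
      rw [← H.range_eq ha] at h4
      obtain ⟨x, hx⟩ := h4
      have h5 := hyN x
      rw [← H.BL_apply, hx, ← dotL_apply, map_add, map_smul, dotL_apply, dotL_apply, dot_single,
        dot_single, h3, smul_zero, add_zero] at h5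
      exact h5
    rcases z2_cases N'.det with h' | h'
    · exact absurd h' this
    · exact h'

lemma Hyp.exists_rep (H : Hyp F π) (hn : 3 ≤ n) (j : Fin n) :
    ∃ P : MvPolynomial (Fin n) (ZMod 2), P.totalDegree ≤ n - 2 ∧
      ∀ x : V n, eval x P = π x j := by
  obtain ⟨P, h1, h2, h3⟩ := exists_poly F hn j
  refine ⟨P, h1, fun x => ?_⟩
  by_cases hx : x = 0
  · rw [hx, h2, H.orth.1]; rfl
  · obtain ⟨i, hi⟩ := Function.ne_iff.mp hx
    have hi1 : x i = 1 := by
      rcases z2_cases (x i) with h | h
      · exact absurd h hi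
      · exact h
    rw [← H.adj_eq hx i j hi1]
    have h4 := congrArg (eval x) (h3 i)
    rw [map_mul, eval_X, hi1, one_mul] at h4
    rw [← h4]
    have h5 : (eval x) ((Mat F).adjugate i j) = ((Mat F).map (eval x)).adjugate i j := by
      have := RingHom.map_adjugate (eval x) (Mat F)
      exact congrFun (congrFun this i) j
    rw [h5]
    congr 2
    ext r c
    simp only [Matrix.map_apply, Matrix.of_apply]
    exact H.eval_mat x r c

lemma Hyp.exists_rep_dot (H : Hyp F π) (hn : 3 ≤ n) (b : V n) :
    ∃ P : MvPolynomial (Fin n) (ZMod 2), P.totalDegree ≤ n - 2 ∧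
      ∀ x : V n, eval x P = dot b (π x) := by
  choose p hp1 hp2 using fun j => H.exists_rep hn j
  refine ⟨∑ j, C (b j) * p j, ?_, ?_⟩
  · refine (totalDegree_finsetSum _ _).trans (Finset.sup_le fun j _ => ?_)
    refine (totalDegree_mul _ _).trans ?_
    rw [totalDegree_C, zero_add]
    exact hp1 j
  · intro x
    rw [map_sum, dot]
    refine Finset.sum_congr rfl fun j _ => ?_
    rw [map_mul, eval_C, hp2]

lemma Hyp.hasDegree (H : Hyp F π) (hn : 3 ≤ n) {b : V n} (hb : b ≠ 0) :
    HasDegree (fun x => dot b (π x)) (n - 2) := by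
  obtain ⟨P, h1, h2⟩ := H.exists_rep_dot hn b
  refine ⟨ml P, degreeOf_ml P, fun x => by rw [eval_ml, h2], ?_⟩
  apply le_antisymm ((totalDegree_ml P).trans h1)
  by_contra h3
  exact H.lower hn hb (ml P) (by omega) (fun x => by rw [eval_ml, h2])

/-- affine functions have a representation of degree at most one -/
lemma affine_rep (c : V n) (e : ZMod 2) :
    ∃ P : MvPolynomial (Fin n) (ZMod 2), P.totalDegree ≤ 1 ∧ ∀ x : V n, eval x P = dot c x + e := by
  refine ⟨(∑ j, C (c j) * X j) + C e, ?_, ?_⟩
  · refine (totalDegree_add _ _).trans (max_le ?_ ?_)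
    · refine (totalDegree_finsetSum _ _).trans (Finset.sup_le fun j _ => ?_)
      refine (totalDegree_mul _ _).trans ?_
      rw [totalDegree_C, zero_add, totalDegree_X]
    · rw [totalDegree_C]; omega
  · intro x
    simp [dot]

end Pool.Agent.N351
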