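import Pool.Agent.N351.OrthoC

set_option autoImplicit false

/-! The nonlinearity of the ortho-derivative vanishes exactly in dimension three. -/

namespace Pool.Agent.N351

open MvPolynomial

variable {n : ℕ} {F π : V n → V n}

lemma eval_second (P : MvPolynomial (Fin n) (ZMod 2)) (h : P.totalDegree ≤ 1)
    (x y : V n) : eval (x + y) P = eval x P + eval y P + eval 0 P := by
  simp only [eval_eq', ← Finset.sum_add_distrib]
  refine Finset.sum_congr rfl fun d hd => ?_
  have hd2 : (d.sum fun _ e => e) ≤ 1 := (le_totalDegree hd).trans h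
  simp only [← mul_add]
  rcases degree_cases d (hd2.trans (by norm_num)) with rfl | ⟨i, rfl⟩ | ⟨i, j, rfl⟩
  · have : ∀ c : ZMod 2, c * 1 = c * (1 + 1 + 1) := by decide
    simpa using this _
  · simp only [prod_single, Pi.add_apply, Pi.zero_apply, add_zero]
  · exfalso
    rw [Finsupp.sum_add_index' (fun _ => rfl) (fun _ _ _ => rfl)] at hd2
    simp at hd2

lemma affine_of_rep (P : MvPolynomial (Fin n) (ZMod 2)) (h : P.totalDegree ≤ 1) :
    ∃ (c : V n) (e : ZMod 2), ∀ x : V n, eval x P = dot c x + e := by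
  let f : V n →+ ZMod 2 := AddMonoidHom.mk' (fun x => eval x P + eval 0 P) (by
    intro x y
    rw [eval_second P h x y]
    generalize eval x P = a
    generalize eval y P = b
    generalize eval 0 P = c
    revert a b c
    decide)
  let g : V n →ₗ[ZMod 2] ZMod 2 := f.toZModLinearMap 2
  refine ⟨fun i => g (fun j => if i = j then 1 else 0), eval 0 P, fun x => ?_⟩
  have h1 : g x = eval x P + eval 0 P := rfl
  have h2 : dot (fun i => g (fun j => if i = j then 1 else 0)) x = g x := by
    rw [LinearMap.pi_apply_eq_sum_univ g x, dot]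
    refine Finset.sum_congr rfl fun i _ => ?_
    rw [smul_eq_mul, mul_comm]
  rw [h2, h1, add_assoc, z2_add_self, add_zero]

lemma Hyp.nl_iff (H : Hyp F π) (hn : 3 ≤ n) : NL π = 0 ↔ n = 3 := by
  have hb : (Pi.single ⟨0, by omega⟩ 1 : V n) ≠ 0 := by
    intro h
    have := congrFun h ⟨0, by omega⟩
    simp at this
  rw [NL, Nat.sInf_eq_zero]
  constructor
  · rintro (h | h)
    · obtain ⟨b, hb, c, e, h1⟩ := h
      have h2 : ∀ x : V n, dot b (π x) = dot c x + e := by
        intro x
        by_contra h3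
        have : x ∈ Finset.univ.filter (fun x : V n => dot b (π x) ≠ dot c x + e) := by
          simp [h3]
        rw [Finset.card_eq_zero.mp h1.symm] at this
        simp at this
      by_contra h3
      obtain ⟨P, hP1, hP2⟩ := affine_rep c e
      exact H.lower hn hb P (by omega) (fun x => by rw [hP2, h2])
    · exfalso
      have : (Finset.univ.filter (fun x : V n =>
          dot (Pi.single ⟨0, by omega⟩ 1) (π x) ≠ dot 0 x + 0)).card ∈ {k : ℕ | ∃ b : V n, b ≠ 0 ∧
            ∃ (c : V n) (e : ZMod 2),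
            k = (Finset.univ.filter (fun x : V n => dot b (π x) ≠ dot c x + e)).card} :=
        ⟨_, hb, 0, 0, rfl⟩
      rw [h] at this
      simp at this
  · rintro rfl
    left
    obtain ⟨P, h1, h2⟩ := H.exists_rep_dot hn (Pi.single ⟨0, by omega⟩ 1)
    obtain ⟨c, e, h3⟩ := affine_of_rep P h1
    refine ⟨_, hb, c, e, ?_⟩
    symm
    rw [Finset.card_eq_zero, Finset.filter_eq_empty_iff]
    intro x _ h4
    exact h4 (by rw [← h2, h3])

lemma hyp_of (hq : IsQuadratic F) (ha : IsAPN F) (ho : IsOrthoDerivative F π) : Hyp F π where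
  quad := by
    intro i
    obtain ⟨d, hd, P, -, h2, h3⟩ := hq.1 i
    exact ⟨P, by omega, h2⟩
  apn := ha
  orth := ho

/-- the cross product function on `F_2^3` -/
def F3 : V 3 → V 3 := fun x => ![x 1 * x 2, x 0 * x 2, x 0 * x 1]

lemma F3_apn : IsAPN F3 := by
  unfold IsAPN F3
  decide

lemma F3_orth : IsOrthoDerivative F3 id := by
  unfold IsOrthoDerivative F3 dot
  decide

lemma deg_two (i j : Fin 3) (hij : i ≠ j) :
    HasDegree (fun x : V 3 => x i * x j) 2 := by
  refine ⟨X i * X j, ?_, ?_, ?_⟩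
  · intro k
    have h1 := degreeOf_mul_le k (X i : MvPolynomial (Fin 3) (ZMod 2)) (X j)
    rw [degreeOf_X, degreeOf_X] at h1
    refine h1.trans ?_
    by_cases h2 : k = i
    · by_cases h3 : k = j
      · exact absurd (h2.symm.trans h3) hij
      · simp [h2, hij]
    · simp only [if_neg h2, zero_add]
      split_ifs <;> omega
  · intro x; simp
  · rw [totalDegree_mul_of_isDomain (X_ne_zero _) (X_ne_zero _), totalDegree_X, totalDegree_X]

lemma F3_quad : IsQuadratic F3 := by
  have h0 : HasDegree (fun x : V 3 => F3 x 0) 2 := deg_two 1 2 (by decide)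
  have h1 : HasDegree (fun x : V 3 => F3 x 1) 2 := deg_two 0 2 (by decide)
  have h2 : HasDegree (fun x : V 3 => F3 x 2) 2 := deg_two 0 1 (by decide)
  refine ⟨fun i => ⟨2, le_rfl, ?_⟩, 0, h0⟩
  fin_cases i
  · exact h0
  · exact h1
  · exact h2

theorem main :
    (∀ n : ℕ, 3 ≤ n → ∀ F π : V n → V n, IsAPN F → IsQuadratic F → IsOrthoDerivative F π →
      (∀ b : V n, b ≠ 0 → HasDegree (fun x => dot b (π x)) (n - 2)) ∧ (NL π = 0 ↔ n = 3)) ∧
    ∃ F π : V 3 → V 3, IsAPN F ∧ IsQuadratic F ∧ IsOrthoDerivative F π ∧ NL π = 0 := by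
  constructor
  · intro n hn F π h1 h2 h3
    have H := hyp_of h2 h1 h3
    exact ⟨fun b hb => H.hasDegree hn hb, H.nl_iff hn⟩
  · refine ⟨F3, id, F3_apn, F3_quad, F3_orth, ?_⟩
    exact ((hyp_of F3_quad F3_apn F3_orth).nl_iff le_rfl).2 rfl

end Pool.Agent.N351
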